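import Mathlib

/-!
Sparse progressions in binary pattern sequences: the conjectured linear bound for `A_v(0,d)`
fails for `d ≥ 2^(2|v|+1)` for all words `v = 1 0^m`, `m ≥ 5`.
-/

namespace Pool.Agent.Results.MP_6ec7bd_co.ThresholdFails

/-- binary words; `true` is the letter `1`, `false` is the letter `0` -/
abbrev Word := List Bool

/-- `|w|_v`: the number of (possibly overlapping) occurrences of `v` as a factor of `w`, i.e. the
number of positions `p < |w|` such that `v` is a prefix of `w` with the first `p` letters removed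
(used for nonempty `v` only). -/
def occ (w v : Word) : ℕ := ((Finset.range w.length).filter fun p => v <+: w.drop p).card

/-- `[w]_2` -/
def val (w : Word) : ℕ := w.foldl (fun a b => 2 * a + b.toNat) 0

/-- `(n)_2`, the binary expansion, most significant digit first; `(0)_2` is empty -/
def bin (n : ℕ) : Word := (Nat.bits n).reverse

/-- the set `V` -/
def InV (v : Word) : Prop := 2 ≤ v.length ∧ true ∈ v

/-- the number `i` of leading zeros of `v` -/
def lead (v : Word) : ℕ := (v.takeWhile (fun b => b == false)).length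

/-- the number `j` of trailing zeros of `v` -/
def trail (v : Word) : ℕ := lead v.reverse

/-- `e_v(n)` -/
def ev (v : Word) (n : ℕ) : ℕ := occ (List.replicate (lead v) false ++ bin n) v

/-- `A_v(0,d)` -/
noncomputable def A (v : Word) (d : ℕ) : ℕ := sInf {l | 1 ≤ l ∧ Odd (ev v (l * d))}

/-- the pairs `(x,y)` in the definition of the constants -/
def Adm (v x y : Word) : Prop :=
  x.length = v.length - 1 ∧ y.length = v.length - 1 ∧
    Odd (occ (List.replicate (lead v) false ++ x) v + occ (y ++ x) v +
      occ (y ++ List.replicate (trail v) false) v)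

/-- `(x,y)` is the lexicographically least admissible pair -/
def IsMinPair (v x y : Word) : Prop :=
  Adm v x y ∧ ∀ x' y', Adm v x' y' → x < x' ∨ (x = x' ∧ (y < y' ∨ y = y'))

/-- `C_v`, for `x = x_min` -/
def C (v x : Word) : ℚ := (val x : ℚ) / 2 ^ (v.length - 1 + trail v)

/-- `B_v`, for `(x,y) = (x_min,y_min)` -/
def B (v x y : Word) : ℚ := (val y : ℚ) - 2 ^ trail v * C v x

/-- The statement of Q1. -/
def Conjecture : Prop :=
  ∀ v : Word, InV v → v ≠ [true, true] → ∀ x y : Word, IsMinPair v x y →
    ∀ d : ℕ, 2 ^ (2 * v.length + 1) ≤ d →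
      (A v d : ℚ) ≤ C v x * d + B v x y ∧
      ((A v d : ℚ) = C v x * d + B v x y ↔
        ∃ k : ℕ, 2 * v.length - 2 ≤ k ∧ d = 2 ^ trail v * (2 ^ k + 1))

/-- the word `1 0^m` -/
def wv (m : ℕ) : Word := true :: List.replicate m false

/-- the word `0^(m-1) 1` -/
def wx (m : ℕ) : Word := List.replicate (m - 1) false ++ [true]

theorem lead_wv (m : ℕ) : lead (wv m) = 0 := by
  simp [lead, wv]

theorem trail_wv (m : ℕ) : trail (wv m) = m := by
  unfold trail lead wv
  rw [List.reverse_cons, List.reverse_replicate, List.takeWhile_append_of_pos]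
  · simp
  · intro a ha
    rw [List.mem_replicate] at ha
    simp [ha.2]

theorem length_wv (m : ℕ) : (wv m).length = m + 1 := by simp [wv]

theorem prefix_wv (m : ℕ) (w : Word) (p : ℕ) :
    wv m <+: w.drop p ↔ w[p]? = some true ∧ ∀ t < m, w[p + 1 + t]? = some false := by
  rw [List.prefix_iff_getElem?]
  simp only [List.getElem?_drop]
  constructor
  · intro h
    constructor
    · have := h 0 (by simp [wv])
      simpa [wv] using this
    · intro t ht
      have := h (t + 1) (by simp [wv]; omega)
      rw [show p + (t + 1) = p + 1 + t by ring] at this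
      simpa [wv] using this
  · rintro ⟨h1, h2⟩ i hi
    rcases i with _ | i
    · simpa [wv] using h1
    · have hi' : i < m := by simp [wv] at hi; omega
      rw [show p + (i + 1) = p + 1 + i by ring, h2 i hi']
      simp [wv]

theorem bits_getElem? (n k : ℕ) (hk : k < n.size) : (Nat.bits n)[k]? = some (n.testBit k) := by
  rw [Nat.testBit_eq_inth]
  have h : k < (Nat.bits n).length := by rw [Nat.size_eq_bits_len]; exact hk
  rw [List.getElem?_eq_getElem h, List.getI_eq_getElem _ h]

theorem bin_length (n : ℕ) : (bin n).length = n.size := by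
  simp [bin, Nat.size_eq_bits_len]

theorem bin_getElem? (n k : ℕ) (hk : k < n.size) :
    (bin n)[k]? = some (n.testBit (n.size - 1 - k)) := by
  unfold bin
  rw [List.getElem?_reverse (by rw [Nat.size_eq_bits_len]; exact hk), Nat.size_eq_bits_len,
    bits_getElem? _ _ (by omega)]

/-- occurrences of `1 0^m` in `(n)_2` in terms of bits -/
theorem prefix_bin {m n p : ℕ} (h : wv m <+: (bin n).drop p) :
    p + m < n.size ∧ n.testBit (n.size - 1 - p) = true ∧
      ∀ t < m, n.testBit (n.size - 1 - p - m + t) = false := by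
  rw [prefix_wv] at h
  obtain ⟨h1, h2⟩ := h
  have hp : p < n.size := by
    by_contra hc
    rw [List.getElem?_eq_none (by rw [bin_length]; omega)] at h1
    simp at h1
  have hpm : p + m < n.size := by
    by_contra hc
    have hm : 0 < m := by omega
    have := h2 (m - 1) (by omega)
    rw [List.getElem?_eq_none (by rw [bin_length]; omega)] at this
    simp at this
  refine ⟨hpm, ?_, ?_⟩
  · rw [bin_getElem? n p hp] at h1
    exact Option.some.inj h1
  · intro t ht
    have h3 := h2 (m - 1 - t) (by omega)
    rw [bin_getElem? n _ (by omega)] at h3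
    have h4 := Option.some.inj h3
    rw [show n.size - 1 - p - m + t = n.size - 1 - (p + 1 + (m - 1 - t)) by omega]
    exact h4

/-- no occurrences in small multiples of `2^e - 1` -/
theorem no_occ {m e l p : ℕ} (hm : 1 ≤ m) (hme : m < e) (hl : 1 ≤ l) (hl2 : l < 2 ^ m) :
    ¬ (wv m <+: (bin (l * (2 ^ e - 1))).drop p) := by
  intro h
  obtain ⟨h1, h2, h3⟩ := prefix_bin h
  set n := l * (2 ^ e - 1) with hn
  set r := n.size - 1 - p - m with hr
  have h2' : n.testBit (r + m) = true := by
    rw [show r + m = n.size - 1 - p by omega]; exact h2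
  have hpow : 2 ^ m < 2 ^ e := Nat.pow_lt_pow_right (by norm_num) hme
  obtain ⟨x, rfl⟩ : ∃ x, l = x + 1 := ⟨l - 1, by omega⟩
  have hx : x < 2 ^ e := by omega
  have hxm : x < 2 ^ m := by omega
  have hnx : n = 2 ^ e * x + (2 ^ e - (x + 1)) := by
    rw [hn, Nat.add_mul, Nat.one_mul, Nat.mul_sub, Nat.mul_one, Nat.mul_comm x]
    have : x ≤ 2 ^ e * x := Nat.le_mul_of_pos_left x (by positivity)
    omega
  have hbit : ∀ q, n.testBit q = if q < e then !(x.testBit q) else x.testBit (q - e) := by
    intro q
    rw [hnx, Nat.testBit_two_pow_mul_add _ (by omega)]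
    split_ifs with hq
    · rw [Nat.testBit_two_pow_sub_succ hx]
      simp [hq]
    · rfl
  have hxbig : ∀ q, m ≤ q → x.testBit q = false := by
    intro q hq
    exact Nat.testBit_lt_two_pow (lt_of_lt_of_le hxm (Nat.pow_le_pow_right (by norm_num) hq))
  -- windows meeting [m, e)
  by_cases hc : ∃ t < m, m ≤ r + t ∧ r + t < e
  · obtain ⟨t, ht, h4, h5⟩ := hc
    have h6 := h3 t ht
    rw [hbit, if_pos h5, hxbig _ h4] at h6
    simp at h6
  · push Not at hc
    by_cases hre : e ≤ r
    · rw [hbit, if_neg (by omega), hxbig _ (by omega)] at h2'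
      exact Bool.noConfusion h2'
    · have hr0 : r = 0 := by
        by_contra hr0
        rcases Nat.lt_or_ge r m with hrm | hrm
        · have := hc (m - r) (by omega) (by omega)
          omega
        · have := hc 0 (by omega) (by omega)
          omega
      have hall : ∀ t < m, x.testBit t = true := by
        intro t ht
        have := h3 t ht
        rw [hr0, Nat.zero_add, hbit, if_pos (by omega)] at this
        simpa using this
      have : x = 2 ^ m - 1 := by
        apply Nat.eq_of_testBit_eq
        intro i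
        rw [Nat.testBit_two_pow_sub_one]
        by_cases hi : i < m
        · rw [hall i hi]; simp [hi]
        · rw [hxbig i (by omega)]; simp [hi]
      omega

theorem ev_small {m e l : ℕ} (hm : 1 ≤ m) (hme : m < e) (hl : 1 ≤ l) (hl2 : l < 2 ^ m) :
    ev (wv m) (l * (2 ^ e - 1)) = 0 := by
  unfold ev occ
  rw [lead_wv, List.replicate_zero, List.nil_append, Finset.card_eq_zero,
    Finset.filter_eq_empty_iff]
  intro p _
  exact no_occ hm hme hl hl2

theorem ev_big {m e : ℕ} (hm : 1 ≤ m) (he : 1 ≤ e) :
    ev (wv m) (2 ^ m * (2 ^ e - 1)) = 1 := by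
  unfold ev occ
  rw [lead_wv, List.replicate_zero, List.nil_append]
  set n := 2 ^ m * (2 ^ e - 1) with hn
  have hbit : ∀ q, n.testBit q = (decide (m ≤ q) && decide (q - m < e)) := by
    intro q
    rw [hn, Nat.testBit_two_pow_mul, Nat.testBit_two_pow_sub_one]
  have hpe : 2 ≤ 2 ^ e := by
    calc 2 = 2 ^ 1 := by norm_num
      _ ≤ 2 ^ e := Nat.pow_le_pow_right (by norm_num) he
  have hsize : n.size = m + e := by
    apply le_antisymm
    · rw [Nat.size_le, hn, pow_add]
      exact Nat.mul_lt_mul_of_pos_left (by omega) (by positivity)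
    · rw [← Nat.lt_iff_add_one_le.trans (by omega : m + e - 1 + 1 ≤ n.size ↔ m + e ≤ n.size),
        Nat.lt_size, hn, show m + e - 1 = m + (e - 1) by omega, pow_add]
      apply Nat.mul_le_mul_left
      have : 2 ^ e = 2 * 2 ^ (e - 1) := by
        rw [← pow_succ']; congr 1; omega
      have : 1 ≤ 2 ^ (e - 1) := Nat.one_le_two_pow
      omega
  rw [Finset.card_eq_one]
  refine ⟨e - 1, ?_⟩
  ext p
  simp only [Finset.mem_filter, Finset.mem_range, Finset.mem_singleton, bin_length, hsize]
  constructor
  · rintro ⟨hp, h⟩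
    obtain ⟨h1, h2, h3⟩ := prefix_bin h
    rw [hsize] at h1 h2 h3
    by_contra hne
    have h4 := h3 (m - 1) (by omega)
    rw [hbit] at h4
    have : m ≤ m + e - 1 - p - m + (m - 1) := by omega
    have h5 : m + e - 1 - p - m + (m - 1) - m < e := by omega
    simp [this, h5] at h4
  · rintro rfl
    refine ⟨by omega, ?_⟩
    rw [prefix_wv]
    constructor
    · rw [bin_getElem? n _ (by omega), hbit, hsize]
      have h1 : m ≤ m + e - 1 - (e - 1) := by omega
      have h2 : m + e - 1 - (e - 1) - m < e := by omega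
      simp [h1, h2]
    · intro t ht
      rw [bin_getElem? n _ (by omega), hbit, hsize]
      have h1 : ¬ m ≤ m + e - 1 - (e - 1 + 1 + t) := by omega
      simp [h1]

theorem A_eq {m e : ℕ} (hm : 1 ≤ m) (hme : m < e) : A (wv m) (2 ^ e - 1) = 2 ^ m := by
  unfold A
  apply le_antisymm
  · apply Nat.sInf_le
    refine ⟨Nat.one_le_two_pow, ?_⟩
    rw [ev_big hm (by omega)]
    exact odd_one
  · apply le_csInf
    · refine ⟨2 ^ m, Nat.one_le_two_pow, ?_⟩
      rw [ev_big hm (by omega)]
      exact odd_one
    · rintro l ⟨hl1, hl2⟩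
      by_contra hlt
      push Not at hlt
      rw [ev_small hm hme hl1 hlt] at hl2
      exact absurd hl2 (by decide)

theorem occ_short {w : Word} {m : ℕ} (h : w.length ≤ m) : occ w (wv m) = 0 := by
  unfold occ
  rw [Finset.card_eq_zero, Finset.filter_eq_empty_iff]
  intro p _ hp
  have := hp.length_le
  rw [length_wv, List.length_drop] at this
  omega

theorem wx_getElem? {m : ℕ} (hm : 1 ≤ m) (u : Word) (k : ℕ) :
    (wx m ++ u)[k]? = if k < m - 1 then some false else if k = m - 1 then some true
      else u[k - m]? := by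
  unfold wx
  rw [List.append_assoc]
  split_ifs with h1 h2
  · rw [List.getElem?_append_left (by simpa using h1)]
    simp [h1]
  · rw [List.getElem?_append_right (by simp [h2])]
    simp [h2]
  · rw [List.getElem?_append_right (by simp; omega), List.length_replicate,
      List.singleton_append]
    rw [show k - (m - 1) = (k - m) + 1 by omega, List.getElem?_cons_succ]

theorem length_wx {m : ℕ} (hm : 1 ≤ m) : (wx m).length = m := by
  simp [wx]; omega

theorem occ_wx_wx {m : ℕ} (hm : 1 ≤ m) : occ (wx m ++ wx m) (wv m) = 0 := by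
  unfold occ
  rw [Finset.card_eq_zero, Finset.filter_eq_empty_iff]
  intro p hp h
  have hlen := h.length_le
  rw [length_wv, List.length_drop, List.length_append, length_wx hm] at hlen
  rw [prefix_wv] at h
  obtain ⟨h1, h2⟩ := h
  rw [wx_getElem? hm] at h1
  split_ifs at h1 with c1 c2
  · simp at h1
  · have h3 := h2 (m - 1) (by omega)
    rw [wx_getElem? hm, if_neg (by omega), if_neg (by omega)] at h3
    have h4 := wx_getElem? hm [] (p + 1 + (m - 1) - m)
    rw [List.append_nil, if_neg (by omega), if_pos (by omega)] at h4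
    rw [h4] at h3
    simp at h3
  · omega

theorem occ_wx_zero {m : ℕ} (hm : 1 ≤ m) : occ (wx m ++ List.replicate m false) (wv m) = 1 := by
  unfold occ
  rw [Finset.card_eq_one]
  refine ⟨m - 1, ?_⟩
  ext p
  simp only [Finset.mem_filter, Finset.mem_range, Finset.mem_singleton, List.length_append,
    length_wx hm, List.length_replicate]
  constructor
  · rintro ⟨hp, h⟩
    rw [prefix_wv] at h
    obtain ⟨h1, h2⟩ := h
    rw [wx_getElem? hm] at h1
    split_ifs at h1 with c1 c2
    · simp at h1
    · exact c2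
    · rw [List.getElem?_replicate] at h1
      split_ifs at h1
      simp at h1
  · rintro rfl
    refine ⟨by omega, ?_⟩
    rw [prefix_wv]
    constructor
    · rw [wx_getElem? hm]; simp
    · intro t ht
      rw [wx_getElem? hm, if_neg (by omega), if_neg (by omega), List.getElem?_replicate,
        if_pos (by omega)]

theorem occ_zero_right {m : ℕ} (hm : 1 ≤ m) :
    occ (List.replicate m false ++ wx m) (wv m) = 0 := by
  unfold occ
  rw [Finset.card_eq_zero, Finset.filter_eq_empty_iff]
  intro p hp h
  have hlen := h.length_le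
  rw [length_wv, List.length_drop, List.length_append, length_wx hm, List.length_replicate] at hlen
  rw [prefix_wv] at h
  obtain ⟨h1, h2⟩ := h
  rw [List.getElem?_append_left (by simp; omega), List.getElem?_replicate, if_pos (by omega)] at h1
  simp at h1

theorem occ_zero_zero {m : ℕ} :
    occ (List.replicate m false ++ List.replicate m false) (wv m) = 0 := by
  unfold occ
  rw [Finset.card_eq_zero, Finset.filter_eq_empty_iff]
  intro p hp h
  rw [prefix_wv] at h
  obtain ⟨h1, h2⟩ := h
  rw [List.replicate_append_replicate, List.getElem?_replicate] at h1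
  split_ifs at h1
  simp at h1

theorem lex_min {m : ℕ} (hm : 1 ≤ m) : ∀ z : Word, z.length = m → z ≠ List.replicate m false →
    wx m < z ∨ wx m = z := by
  induction m, hm using Nat.le_induction with
  | base =>
    intro z hz hne
    match z, hz with
    | [b], _ =>
      cases b
      · exact absurd rfl hne
      · right; rfl
  | succ m hm ih =>
    intro z hz hne
    match z, hz with
    | b :: z', hz =>
      have hz' : z'.length = m := by simpa using hz
      have hwx : wx (m + 1) = false :: wx m := by
        unfold wx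
        rw [show m + 1 - 1 = (m - 1) + 1 by omega, List.replicate_succ, List.cons_append]
      cases b
      · have hne' : z' ≠ List.replicate m false := by
          rintro rfl
          exact hne (by rw [List.replicate_succ])
        rcases ih z' hz' hne' with h | h
        · left
          rw [hwx, List.cons_lt_cons_iff]
          exact Or.inr ⟨rfl, h⟩
        · right
          rw [hwx, h]
      · left
        rw [hwx, List.cons_lt_cons_iff]
        exact Or.inl (by decide)

theorem isMinPair {m : ℕ} (hm : 1 ≤ m) : IsMinPair (wv m) (wx m) (wx m) := by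
  have hl := length_wv m
  refine ⟨⟨by rw [length_wx hm, hl]; rfl, by rw [length_wx hm, hl]; rfl, ?_⟩, ?_⟩
  · rw [lead_wv, trail_wv, List.replicate_zero, List.nil_append, occ_short (length_wx hm).le,
      occ_wx_wx hm, occ_wx_zero hm]
    decide
  · rintro x' y' ⟨hx', hy', hodd⟩
    rw [hl, Nat.add_sub_cancel] at hx' hy'
    rw [lead_wv, trail_wv, List.replicate_zero, List.nil_append, occ_short hx'.le] at hodd
    have hx0 : x' ≠ List.replicate m false := by
      rintro rfl
      rw [Nat.zero_add] at hodd
      exact (Nat.not_odd_iff_even.2 (Even.add_self _)) hodd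
    rcases lex_min hm x' hx' hx0 with h | h
    · exact Or.inl h
    · right
      refine ⟨h, ?_⟩
      apply lex_min hm y' hy'
      rintro rfl
      rw [← h, occ_zero_right hm, occ_zero_zero] at hodd
      exact absurd hodd (by decide)

theorem val_wx (m : ℕ) : val (wx m) = 1 := by
  unfold val wx
  rw [List.foldl_append]
  have : List.foldl (fun a b => 2 * a + b.toNat) 0 (List.replicate (m - 1) false) = 0 := by
    generalize m - 1 = k
    induction k with
    | zero => rfl
    | succ k ih => rw [List.replicate_succ, List.foldl_cons]; simpa using ih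
  rw [this]
  rfl

theorem C_eq (m : ℕ) : C (wv m) (wx m) = 1 / 2 ^ (2 * m) := by
  unfold C
  rw [val_wx, length_wv, trail_wv, Nat.add_sub_cancel, two_mul]
  norm_num

theorem B_eq (m : ℕ) : B (wv m) (wx m) (wx m) = 1 - 1 / 2 ^ m := by
  unfold B
  rw [C_eq, val_wx, trail_wv, two_mul, pow_add]
  field_simp
  norm_num

/-- **Main theorem.** The conjecture is false: for `v = 1 0^m` with `m ≥ 5` and every `e` with
`2m + 4 ≤ e ≤ 3m - 1` it fails at `d = 2^e - 1 ≥ 2^(2|v|+1)`, where `A_v(0,d) = 2^m`. -/
theorem result :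
    (∀ m e : ℕ, 5 ≤ m → 2 * m + 4 ≤ e → e ≤ 3 * m - 1 →
      InV (wv m) ∧ wv m ≠ [true, true] ∧ IsMinPair (wv m) (wx m) (wx m) ∧
      2 ^ (2 * (wv m).length + 1) ≤ 2 ^ e - 1 ∧
      A (wv m) (2 ^ e - 1) = 2 ^ m ∧
      C (wv m) (wx m) * ((2 ^ e - 1 : ℕ) : ℚ) + B (wv m) (wx m) (wx m) < 2 ^ (e - 2 * m) + 1 ∧
      C (wv m) (wx m) * ((2 ^ e - 1 : ℕ) : ℚ) + B (wv m) (wx m) (wx m)
        < (A (wv m) (2 ^ e - 1) : ℚ)) ∧
    ¬ Conjecture := by
  have main : ∀ m e : ℕ, 5 ≤ m → 2 * m + 4 ≤ e → e ≤ 3 * m - 1 →
      InV (wv m) ∧ wv m ≠ [true, true] ∧ IsMinPair (wv m) (wx m) (wx m) ∧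
      2 ^ (2 * (wv m).length + 1) ≤ 2 ^ e - 1 ∧
      A (wv m) (2 ^ e - 1) = 2 ^ m ∧
      C (wv m) (wx m) * ((2 ^ e - 1 : ℕ) : ℚ) + B (wv m) (wx m) (wx m) < 2 ^ (e - 2 * m) + 1 ∧
      C (wv m) (wx m) * ((2 ^ e - 1 : ℕ) : ℚ) + B (wv m) (wx m) (wx m)
        < (A (wv m) (2 ^ e - 1) : ℚ) := by
    intro m e hm he1 he2
    have hA := A_eq (m := m) (e := e) (by omega) (by omega)
    have hlt : C (wv m) (wx m) * ((2 ^ e - 1 : ℕ) : ℚ) + B (wv m) (wx m) (wx m)
        < 2 ^ (e - 2 * m) + 1 := by
      rw [C_eq, B_eq]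
      have h1 : ((2 ^ e - 1 : ℕ) : ℚ) < 2 ^ e := by
        have : (2 ^ e - 1 : ℕ) < 2 ^ e := Nat.sub_lt (by positivity) (by norm_num)
        exact_mod_cast this
      have h2 : (2 : ℚ) ^ e = 2 ^ (e - 2 * m) * 2 ^ (2 * m) := by
        rw [← pow_add]; congr 1; omega
      have h3 : (0 : ℚ) < 1 / 2 ^ m := by positivity
      have h4 : 1 / (2 : ℚ) ^ (2 * m) * ((2 ^ e - 1 : ℕ) : ℚ) < 2 ^ (e - 2 * m) := by
        rw [one_div, inv_mul_lt_iff₀ (by positivity)]
        calc ((2 ^ e - 1 : ℕ) : ℚ) < 2 ^ e := h1
          _ = 2 ^ (2 * m) * 2 ^ (e - 2 * m) := by rw [h2]; ring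
      linarith
    refine ⟨⟨by rw [length_wv]; omega, by simp [wv]⟩, ?_, isMinPair (by omega), ?_, hA, hlt, ?_⟩
    · intro h
      have := congrArg List.length h
      rw [length_wv] at this
      simp at this
      omega
    · rw [length_wv]
      have : 2 ^ (2 * (m + 1) + 1) < 2 ^ e := Nat.pow_lt_pow_right (by norm_num) (by omega)
      omega
    · rw [hA]
      refine lt_of_lt_of_le hlt ?_
      push_cast
      have h1 : (2 : ℚ) ^ (e - 2 * m) ≤ 2 ^ (m - 1) :=
        pow_le_pow_right₀ (by norm_num) (by omega)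
      have h2 : (2 : ℚ) ^ m = 2 * 2 ^ (m - 1) := by
        rw [← pow_succ']; congr 1; omega
      have h3 : (1 : ℚ) ≤ 2 ^ (m - 1) := one_le_pow₀ (by norm_num)
      linarith
  refine ⟨main, fun hconj => ?_⟩
  obtain ⟨h1, h2, h3, h4, h5, h6, h7⟩ := main 5 14 (by norm_num) (by norm_num) (by norm_num)
  have := (hconj _ h1 h2 _ _ h3 _ h4).1
  linarith

end Pool.Agent.Results.MP_6ec7bd_co.ThresholdFails
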